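import Pool.Agent.Lib.MP_a78e1f_lc.U.Iface
import Pool.Agent.Lib.MP_a78e1f_lc.H65.Gndmx

/-!
# BITS: free bits
-/

universe u v w

open Cardinal Filter MeasureTheory

namespace Pool.Agent.Lib.MP_a78e1f_lc.H15

open Pool.Agent.Lib.MP_100a6c_lc
open Pool.Agent.Lib.MP_e6fef2_lc
open Pool.Agent.Lib.MP_6d445e_gt

theorem bit_of (hgnd : GndStatement.{u}) (hgmx : GmxStatement.{u}) {𝒯 : Set (List ℕ) → Prop}
    (hT : TFam 𝒯) {T0 : Set (List ℕ)} (h : 𝒯 T0) (h0 : [0] ∈ T0) (h1 : [1] ∈ T0) :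
    Bit.{u} 𝒯 := by
  intro A _
  obtain ⟨hne, -, -, hdis, -, -, hprj, -⟩ := hgnd 𝒯 hT A
  obtain ⟨-, -, -, -, -, -, -, hex⟩ := hgmx 𝒯 hT A
  obtain ⟨τ, hτ⟩ := hex (fun t _ => t ∈ T0) (fun t => MeasurableSet.const _)
    (Filter.Eventually.of_forall fun _ => h)
  have hE : IsCE (tE 𝒯 A) := (all_tw1 A (TX 𝒯 A) (TQ 𝒯 A)).1
  have key : ∀ t : List ℕ, t ∈ T0 → prj (tE 𝒯 A) (tND t) = ⊤ := by
    intro t ht
    have h2 : τ.1 t = ⊤ := by
      rw [eq_top_iff]
      apply le_of_ae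
      filter_upwards [hτ] with g hg _
      exact (hg t).2 ht
    have h3 := hprj τ t
    rw [h2] at h3
    rw [eq_top_iff, ← h3]
    exact (all_alg _ _ _ hE).2.2.2.2.2.2.2.2.2.2.2.2.1 _ _ inf_le_right
  refine ⟨tND [0], key _ h0, ?_⟩
  have h4 : (tND [1] : tC 𝒯 A) ≤ (tND [0])ᶜ := by
    rw [le_compl_iff_disjoint_right, disjoint_iff]
    refine hdis _ _ ?_
    rintro (h | h) <;> simp at h
  rw [eq_top_iff, ← key _ h1]
  exact (all_alg _ _ _ hE).2.2.2.2.2.2.2.2.2.2.2.2.1 _ _ h4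

theorem exists_bd (t : List ℕ) : ∃ M, ∀ a ∈ t, a < M := by
  induction t with
  | nil => exact ⟨0, by simp⟩
  | cons b t ih =>
    obtain ⟨M, hM⟩ := ih
    refine ⟨max M (b + 1), fun a ha => ?_⟩
    rcases List.mem_cons.1 ha with rfl | h
    · exact lt_of_lt_of_le (Nat.lt_succ_self _) (le_max_right _ _)
    · exact lt_of_lt_of_le (hM a h) (le_max_left _ _)

theorem inc_ext {t : List ℕ} (h : Inc t) (m : ℕ) : ∃ k, m ≤ k ∧ Inc (t ++ [k]) := by
  obtain ⟨M, hM⟩ := exists_bd t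
  refine ⟨max m M, le_max_left _ _, ?_⟩
  unfold Inc at h ⊢
  rw [List.pairwise_append]
  refine ⟨h, List.pairwise_singleton _ _, fun a ha b hb => ?_⟩
  rw [List.mem_singleton] at hb
  subst hb
  exact lt_of_lt_of_le (hM a ha) (le_max_right _ _)

theorem inc_pre {t t' : List ℕ} (h : t <+: t') (h' : Inc t') : Inc t :=
  List.Pairwise.sublist h.sublist h'

theorem inc_nil : Inc [] := List.Pairwise.nil

theorem inc_one (k : ℕ) : Inc [k] := List.pairwise_singleton _ _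

theorem mil_full : IsMil {t | Inc t} :=
  ⟨inc_nil, fun _ _ h h' => inc_pre h h', fun _ h => h,
    fun t ht => ⟨t, List.prefix_refl _, fun m => inc_ext ht m⟩⟩

theorem lav_full : IsLav {t | Inc t} :=
  ⟨fun _ _ h h' => inc_pre h h', fun _ h => h,
    ⟨[], inc_nil, fun _ _ => Or.inr (List.nil_prefix), fun _ ht _ m => inc_ext ht m⟩⟩

theorem sac_full : IsSac {t | ∀ i ∈ t, i = 0 ∨ i = 1} :=
  ⟨by simp, fun _ _ h h' i hi => h' i (h.subset hi), fun _ h => h,
    fun t ht => ⟨t, List.prefix_refl _, by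
      intro i hi
      rcases List.mem_append.1 hi with h | h
      · exact ht i h
      · exact Or.inl (List.mem_singleton.1 h), by
      intro i hi
      rcases List.mem_append.1 hi with h | h
      · exact ht i h
      · exact Or.inr (List.mem_singleton.1 h)⟩⟩

/-- BITS. -/
theorem bits (hgnd : GndStatement.{u}) (hgmx : GmxStatement.{u}) (hfam : FamStatement) :
    BitsStatement.{u} :=
  ⟨bit_of hgnd hgmx hfam.1 mil_full (inc_one 0) (inc_one 1),
    bit_of hgnd hgmx hfam.2.1 lav_full (inc_one 0) (inc_one 1),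
    bit_of hgnd hgmx hfam.2.2 sac_full (by simp) (by simp)⟩

end Pool.Agent.Lib.MP_a78e1f_lc.H15
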